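import Mathlib
import Pool.Agent.H198Z.BurnMain

/-!
# Retracts of free Burnside groups that are not free

If the exponent `n ≥ 2` is not a prime power (for instance `n = 15 * 3 ^ j`), then every free
Burnside group `B(m, n)` of rank `m ≥ 2` has a retract that is not a free Burnside group of any rank
and any exponent.
-/

set_option autoImplicit false

namespace Pool.Agent.Results.MP_836feb_al.ANonFreeRetract

open Pool.Agent.H198Z.Burn

universe u v

theorem result (n : ℕ) (hn : 2 ≤ n) (hpp : ¬ IsPrimePow n) (α : Type u) [Nontrivial α] :
    ∃ H : Subgroup (Burnside α n), (∃ ρ : Burnside α n →* H, ∀ h : H, ρ h = h) ∧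
      ∀ (κ : Type v) (n' : ℕ), IsEmpty (H ≃* Burnside κ n') :=
  main n hn hpp α

end Pool.Agent.Results.MP_836feb_al.ANonFreeRetract
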